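import Mathlib

set_option autoImplicit false

namespace Pool.Agent.P.MP_e4ebbc_al

open scoped commutatorElement

variable {B : Type} [CommRing B]

/-- A group of units and a group of ring automorphisms preserving it. -/
structure Data (B : Type) [CommRing B] where
  A : Subgroup Bˣ
  Z : Subgroup (RingAut B)
  inv : ∀ φ ∈ Z, ∀ u ∈ A, Units.map (φ : B →* B) u ∈ A

/-- The group of maps `x ↦ u * φ x + w`. -/
def Data.G (d : Data B) : Subgroup (Equiv.Perm B) where
  carrier := {g | ∃ w : B, ∃ u ∈ d.A, ∃ φ ∈ d.Z, ∀ x, g x = (u : B) * φ x + w}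
  one_mem' := ⟨0, 1, d.A.one_mem, 1, d.Z.one_mem, fun x => by simp⟩
  mul_mem' := by
    rintro g h ⟨w, u, hu, φ, hφ, hg⟩ ⟨w', u', hu', φ', hφ', hh⟩
    refine ⟨u * φ w' + w, u * Units.map (φ : B →* B) u', d.A.mul_mem hu (d.inv φ hφ u' hu'),
      φ * φ', d.Z.mul_mem hφ hφ', fun x => ?_⟩
    simp only [Equiv.Perm.mul_apply, hg, hh, map_add, map_mul, Units.val_mul, Units.coe_map,
      MonoidHom.coe_coe, RingAut.mul_apply]
    ring
  inv_mem' := by
    rintro g ⟨w, u, hu, φ, hφ, hg⟩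
    refine ⟨-φ⁻¹ (((u⁻¹ : Bˣ) : B) * w), Units.map ((φ⁻¹ : RingAut B) : B →* B) u⁻¹,
      d.inv _ (d.Z.inv_mem hφ) _ (d.A.inv_mem hu), φ⁻¹, d.Z.inv_mem hφ, fun x => ?_⟩
    rw [Equiv.Perm.inv_eq_iff_eq, hg]
    have h1 : ∀ y, φ ((φ⁻¹ : RingAut B) y) = y := fun y => φ.apply_symm_apply y
    simp only [map_add, map_mul, map_neg, Units.coe_map, MonoidHom.coe_coe, h1]
    have h2 : (u : B) * ((u⁻¹ : Bˣ) : B) = 1 := u.mul_inv
    linear_combination (w - x) * h2

theorem Data.mem_G (d : Data B) (g : Equiv.Perm B) :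
    g ∈ d.G ↔ ∃ w : B, ∃ u ∈ d.A, ∃ φ ∈ d.Z, ∀ x, g x = (u : B) * φ x + w := Iff.rfl

theorem card_le_of_cover (d : Data B) (S : Set d.G) {ι : Type} [Finite ι] (F : ι → B → B)
    (h : ∀ g ∈ S, ∃ i, ∀ x, F i x = (g : Equiv.Perm B) x) : Nat.card S ≤ Nat.card ι := by
  choose f hf using h
  refine Nat.card_le_card_of_injective (fun g : S => f g.1 g.2) ?_
  intro g g' hgg
  apply Subtype.ext; apply Subtype.ext
  ext x
  rw [← hf g.1 g.2 x, ← hf g'.1 g'.2 x]
  simp only at hgg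
  rw [hgg]

/-- Conjugacy classes of elements with trivial automorphism part. -/
theorem card_conj_one [Finite B] (d : Data B) (J : Ideal B) (hJ : ∀ u ∈ d.A, (u : B) - 1 ∈ J)
    (g : d.G) (w₀ : B) (u₀ : Bˣ) (hu₀ : u₀ ∈ d.A)
    (hg : ∀ x, (g : Equiv.Perm B) x = (u₀ : B) * x + w₀) :
    Nat.card {h : d.G | IsConj g h} ≤ Nat.card d.Z * Nat.card J := by
  have : Finite (RingAut B) := DFunLike.finite _
  rw [← Nat.card_prod]
  refine card_le_of_cover d _
    (fun (i : d.Z × J) x => (i.1 : RingAut B) u₀ * x + ((i.1 : RingAut B) w₀ + i.2)) ?_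
  intro h hh
  obtain ⟨c, rfl⟩ := isConj_iff.1 hh
  obtain ⟨w, u, hu, φ, hφ, hc⟩ := c.2
  have hj : ((u : B) - 1) * φ w₀ - (φ u₀ - 1) * w ∈ J := by
    refine J.sub_mem (J.mul_mem_right _ (hJ u hu)) (J.mul_mem_right _ ?_)
    simpa using hJ _ (d.inv φ hφ u₀ hu₀)
  refine ⟨(⟨φ, hφ⟩, ⟨_, hj⟩), fun x => ?_⟩
  obtain ⟨y, rfl⟩ := (c : Equiv.Perm B).surjective x
  simp only [Subgroup.coe_mul, InvMemClass.coe_inv, Equiv.Perm.mul_apply,
    Equiv.Perm.coe_inv, Equiv.symm_apply_apply]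
  simp only [hc, hg, map_add, map_mul]
  ring

/-- The additive map `x ↦ x - u * φ x`. -/
def Nmap (u : Bˣ) (φ : RingAut B) : B →+ B where
  toFun x := x - (u : B) * φ x
  map_zero' := by simp
  map_add' x y := by simp only [map_add]; ring

theorem card_conj_two [Finite B] (d : Data B)
    (g : d.G) (w₀ : B) (u₀ : Bˣ) (φ₀ : RingAut B)
    (hg : ∀ x, (g : Equiv.Perm B) x = (u₀ : B) * φ₀ x + w₀) :
    Nat.card {h : d.G | IsConj g h} ≤
      Nat.card d.A * Nat.card d.Z * Nat.card (Nmap u₀ φ₀).range := by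
  have : Finite (RingAut B) := DFunLike.finite _
  rw [← Nat.card_prod, ← Nat.card_prod]
  refine card_le_of_cover d _
    (fun (i : (d.A × d.Z) × (Nmap u₀ φ₀).range) x =>
      ((i.1.1 : Bˣ) : B) * (i.1.2 : RingAut B) ((g : Equiv.Perm B)
        ((i.1.2 : RingAut B).symm ((((i.1.1 : Bˣ)⁻¹ : Bˣ) : B) * x)) + i.2)) ?_
  intro h hh
  obtain ⟨c, rfl⟩ := isConj_iff.1 hh
  obtain ⟨w, u, hu, φ, hφ, hc⟩ := c.2
  obtain ⟨w', rfl⟩ : ∃ w', w = (u : B) * φ w' :=
    ⟨φ.symm (((u⁻¹ : Bˣ) : B) * w), by simp [← mul_assoc]⟩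
  refine ⟨((⟨u, hu⟩, ⟨φ, hφ⟩), ⟨_, w', rfl⟩), fun x => ?_⟩
  obtain ⟨y, rfl⟩ := (c : Equiv.Perm B).surjective x
  have h1 : φ.symm (((u⁻¹ : Bˣ) : B) * ((u : B) * φ y + (u : B) * φ w')) = y + w' := by
    rw [← mul_add, ← mul_assoc, u.inv_mul, one_mul, ← map_add, RingEquiv.symm_apply_apply]
  simp only [Subgroup.coe_mul, InvMemClass.coe_inv, Equiv.Perm.mul_apply,
    Equiv.Perm.coe_inv, Equiv.symm_apply_apply]
  simp only [hc, h1]
  simp only [hg, Nmap, AddMonoidHom.coe_mk, ZeroHom.coe_mk, map_add, map_mul, map_sub]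
  ring

/-- The kernel of an endomorphism. -/
def kerE {V : Type} [AddCommGroup V] (N : AddMonoid.End V) : AddSubgroup V where
  carrier := {x | N x = 0}
  zero_mem' := map_zero N
  add_mem' := by
    intro x y hx hy
    simp only [Set.mem_ofPred_eq] at hx hy ⊢
    rw [map_add, hx, hy, add_zero]
  neg_mem' := by
    intro x hx
    simp only [Set.mem_ofPred_eq] at hx ⊢
    rw [map_neg, hx, neg_zero]

theorem card_ker_pow {V : Type} [AddCommGroup V] [Finite V] (N : AddMonoid.End V) (m : ℕ) :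
    Nat.card (kerE (N ^ m)) ≤ Nat.card (kerE N) ^ m := by
  induction m with
  | zero =>
    rw [pow_zero, pow_zero]
    have : kerE (1 : AddMonoid.End V) = ⊥ := by
      rw [eq_bot_iff]; exact fun _ h => h
    rw [this]; simp
  | succ m ih =>
    let K := kerE (N ^ (m + 1))
    let f : K →+ V :=
      { toFun := fun x => N x, map_zero' := by simp, map_add' := fun x y => by simp }
    have h1 : Nat.card K = Nat.card f.range * Nat.card f.ker := by
      rw [← Nat.card_congr (QuotientAddGroup.quotientKerEquivRange f).toEquiv]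
      exact AddSubgroup.card_eq_card_quotient_mul_card_addSubgroup _
    have h2 : Nat.card f.range ≤ Nat.card (kerE (N ^ m)) := by
      apply AddSubgroup.card_le_of_le
      rintro _ ⟨⟨x, hx⟩, rfl⟩
      have hx' : (N ^ (m + 1)) x = 0 := hx
      rw [pow_succ] at hx'
      exact hx'
    have h3 : Nat.card f.ker ≤ Nat.card (kerE N) := by
      refine Nat.card_le_card_of_injective (fun x => ⟨x.1.1, x.2⟩) ?_
      intro x y hxy
      apply Subtype.ext; apply Subtype.ext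
      exact congrArg (fun z : kerE N => (z : V)) hxy
    calc Nat.card K = _ := h1
      _ ≤ Nat.card (kerE N) ^ m * Nat.card (kerE N) :=
        Nat.mul_le_mul (h2.trans ih) h3
      _ = _ := (pow_succ _ _).symm

theorem card_range_le [Finite B] [Nontrivial B] (p : ℕ) (hp : p.Prime) [CharP B p]
    (u : Bˣ) (φ : RingAut B) (a F : ℕ)
    (hT : ∀ x, (fun y => (u : B) * φ y)^[p ^ a] x = x) (hF : F ^ (p ^ a) ≤ Nat.card B) :
    Nat.card (Nmap u φ).range * F ≤ Nat.card B := by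
  have : Fact p.Prime := ⟨hp⟩
  let T : AddMonoid.End B :=
    { toFun := fun y => (u : B) * φ y, map_zero' := by simp,
      map_add' := fun x y => by simp only [map_add]; ring }
  have : Nontrivial (AddMonoid.End B) := ⟨⟨0, 1, fun h => by
    have := DFunLike.congr_fun h (1 : B)
    simp at this⟩⟩
  have : CharP (AddMonoid.End B) p := (CharP.charP_iff_prime_eq_zero hp).2 (by
    ext x
    simp)
  have hpow : ((1 : AddMonoid.End B) - T) ^ (p ^ a) = 0 := by
    rw [sub_pow_char_pow_of_commute _ _ (Commute.one_left T), one_pow, sub_eq_zero]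
    ext x
    rw [AddMonoid.End.coe_pow]
    exact (hT x).symm
  have h1 := card_ker_pow ((1 : AddMonoid.End B) - T) (p ^ a)
  rw [hpow] at h1
  have h2 : kerE (0 : AddMonoid.End B) = ⊤ := by
    rw [eq_top_iff]; intro x _; rfl
  have h5 : kerE ((1 : AddMonoid.End B) - T) = (Nmap u φ).ker := by
    ext x; rfl
  rw [h2, AddSubgroup.card_top, h5] at h1
  have h3 : F ≤ Nat.card (Nmap u φ).ker :=
    (Nat.pow_le_pow_iff_left (pow_ne_zero _ hp.ne_zero)).1 (hF.trans h1)
  have h4 : Nat.card B = Nat.card (Nmap u φ).range * Nat.card (Nmap u φ).ker := by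
    rw [← Nat.card_congr (QuotientAddGroup.quotientKerEquivRange (Nmap u φ)).toEquiv]
    exact AddSubgroup.card_eq_card_quotient_mul_card_addSubgroup _
  rw [h4]
  exact Nat.mul_le_mul_left _ h3

theorem iterate_lin (u : Bˣ) (φ : RingAut B) (m : ℕ) (x : B) :
    (fun y => (u : B) * φ y)^[m] x = (∏ l ∈ Finset.range m, (φ ^ l) (u : B)) * (φ ^ m) x := by
  induction m generalizing x with
  | zero => simp
  | succ m ih =>
    rw [Function.iterate_succ_apply, ih, Finset.prod_range_succ, map_mul, pow_succ,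
      RingAut.mul_apply, mul_assoc]

theorem pow_form (d : Data B) (g : Equiv.Perm B) (w : B) (u : Bˣ) (hu : u ∈ d.A) (φ : RingAut B)
    (hφ : φ ∈ d.Z) (hg : ∀ x, g x = (u : B) * φ x + w) (m : ℕ) :
    ∃ w' : B, ∃ u' ∈ d.A, ∀ x, (g ^ m) x = (u' : B) * (φ ^ m) x + w' := by
  induction m with
  | zero => exact ⟨0, 1, d.A.one_mem, fun x => by simp⟩
  | succ m ih =>
    obtain ⟨w', u', hu', h⟩ := ih
    refine ⟨u * φ w' + w, u * Units.map (φ : B →* B) u', d.A.mul_mem hu (d.inv φ hφ u' hu'),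
      fun x => ?_⟩
    rw [pow_succ', pow_succ']
    simp only [Equiv.Perm.mul_apply, hg, h, map_add, map_mul, Units.val_mul, Units.coe_map,
      MonoidHom.coe_coe, RingAut.mul_apply]
    ring

theorem isPGroup (d : Data B) (p : ℕ) [CharP B p] (a k : ℕ)
    (hZ : ∀ φ ∈ d.Z, φ ^ (p ^ a) = 1) (hA : ∀ u ∈ d.A, u ^ (p ^ k) = 1) : IsPGroup p d.G := by
  rintro ⟨g, w, u, hu, φ, hφ, hg⟩
  refine ⟨a + k + 1, Subtype.ext ?_⟩
  obtain ⟨w₁, u₁, hu₁, h₁⟩ := pow_form d g w u hu φ hφ hg (p ^ a)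
  rw [hZ φ hφ] at h₁
  have h₂ : ∀ m : ℕ, ∃ w₂ : B, ∀ x, ((g ^ p ^ a) ^ m) x = ((u₁ ^ m : Bˣ) : B) * x + w₂ := by
    intro m
    induction m with
    | zero => exact ⟨0, fun x => by simp⟩
    | succ m ih =>
      obtain ⟨w₂, h⟩ := ih
      refine ⟨u₁ * w₂ + w₁, fun x => ?_⟩
      rw [pow_succ', pow_succ', Equiv.Perm.mul_apply, h₁, h]
      simp only [RingAut.one_apply, Units.val_mul]
      ring
  obtain ⟨w₂, h₃⟩ := h₂ (p ^ k)
  rw [hA u₁ hu₁] at h₃
  have h₄ : ∀ m : ℕ, ∀ x, (((g ^ p ^ a) ^ p ^ k) ^ m) x = x + m * w₂ := by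
    intro m
    induction m with
    | zero => simp
    | succ m ih =>
      intro x
      rw [pow_succ', Equiv.Perm.mul_apply, h₃, ih]
      push_cast
      ring
  ext x
  have := h₄ p x
  rw [← pow_mul, ← pow_mul, ← pow_succ, ← pow_add, CharP.cast_eq_zero] at this
  simpa [add_assoc] using this

/-- Translation by `w`. -/
def transl (d : Data B) (w : B) : d.G :=
  ⟨Equiv.addRight w, w, 1, d.A.one_mem, 1, d.Z.one_mem, fun x => by simp⟩

/-- The semilinear map `x ↦ u * φ x`. -/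
def lin (d : Data B) (u : Bˣ) (hu : u ∈ d.A) (φ : RingAut B) (hφ : φ ∈ d.Z) : d.G :=
  ⟨φ.toEquiv.trans u.mulLeft, 0, u, hu, φ, hφ, fun x => by simp⟩

theorem lcs_step (d : Data B) (u : Bˣ) (hu : u ∈ d.A) (φ : RingAut B) (hφ : φ ∈ d.Z) (j : ℕ)
    (w : B) (hw : transl d w ∈ (⊤ : Subgroup d.G).lowerCentralSeries j) :
    transl d (w - (u : B) * φ w) ∈ (⊤ : Subgroup d.G).lowerCentralSeries (j + 1) := by
  have h : transl d (w - (u : B) * φ w) = ⁅transl d w, lin d u hu φ hφ⁆ := by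
    rw [commutatorElement_def, eq_mul_inv_iff_mul_eq, eq_mul_inv_iff_mul_eq]
    apply Subtype.ext
    ext x
    simp [transl, lin]
    ring
  rw [h]
  exact Subgroup.commutator_mem_commutator hw (Subgroup.mem_top _)

theorem transl_ne_one (d : Data B) (w : B) (hw : w ≠ 0) : transl d w ≠ 1 := by
  intro h
  have := congrArg (fun g : d.G => (g : Equiv.Perm B) 0) h
  simp [transl] at this
  exact hw this

end Pool.Agent.P.MP_e4ebbc_al
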