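import Mathlib

set_option autoImplicit false

namespace Pool.Agent.P.MP_e4ebbc_al

open Polynomial

/-- Truncated polynomial ring `F_p[t]/(t^n)` with `n = p^k`. -/
abbrev TR (p k : ℕ) : Type := AdjoinRoot (X ^ (p ^ k) : (ZMod p)[X])

variable (p k : ℕ) [hp : Fact p.Prime]

noncomputable def tt : TR p k := AdjoinRoot.root _

noncomputable def cc (a : ZMod p) : TR p k := AdjoinRoot.of _ a

theorem tt_pow : tt p k ^ (p ^ k) = 0 := by
  have := AdjoinRoot.mk_self (f := (X ^ (p ^ k) : (ZMod p)[X]))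
  rw [map_pow, AdjoinRoot.mk_X] at this
  exact this

theorem tt_pow_ne (m : ℕ) (hm : m < p ^ k) : tt p k ^ m ≠ 0 := by
  intro h
  have h1 : AdjoinRoot.mk (X ^ (p ^ k) : (ZMod p)[X]) (X ^ m) = 0 := by
    rw [map_pow, AdjoinRoot.mk_X]; exact h
  rw [AdjoinRoot.mk_eq_zero] at h1
  have := natDegree_le_of_dvd h1 (pow_ne_zero _ X_ne_zero)
  simp only [natDegree_pow, natDegree_X, mul_one] at this
  omega

theorem nontrivial_TR : Nontrivial (TR p k) :=
  ⟨⟨1, 0, by simpa using tt_pow_ne p k 0 (pow_pos hp.out.pos k)⟩⟩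

theorem charP_TR : CharP (TR p k) p := by
  have := nontrivial_TR p k
  exact charP_of_injective_algebraMap (algebraMap (ZMod p) (TR p k)).injective p

theorem finite_TR : Finite (TR p k) := by
  have := (AdjoinRoot.powerBasis' (monic_X_pow (R := ZMod p) (p ^ k))).finite
  exact Module.finite_of_finite (ZMod p)

theorem card_TR : Nat.card (TR p k) = p ^ (p ^ k) := by
  have := (AdjoinRoot.powerBasis' (monic_X_pow (R := ZMod p) (p ^ k))).finite
  rw [Module.natCard_eq_pow_finrank (K := ZMod p),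
    (AdjoinRoot.powerBasis' (monic_X_pow (R := ZMod p) (p ^ k))).finrank]
  simp

theorem nilp (a : ZMod p) : IsNilpotent (cc p k a * tt p k) :=
  ⟨p ^ k, by rw [mul_pow, tt_pow, mul_zero]⟩

/-- The unit `1 - a t`. -/
noncomputable def uu (a : ZMod p) : (TR p k)ˣ := (nilp p k a).isUnit_one_sub.unit

theorem uu_val (a : ZMod p) : (uu p k a : TR p k) = 1 - cc p k a * tt p k := rfl

theorem uu_pow (a : ZMod p) : uu p k a ^ (p ^ k) = 1 := by
  have := charP_TR p k
  apply Units.ext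
  rw [Units.val_pow_eq_pow_val, uu_val, sub_pow_char_pow, mul_pow, tt_pow]
  simp

theorem uu_zero : uu p k 0 = 1 := by
  apply Units.ext
  simp [uu_val, cc]

/-- The substitution `t ↦ t / (1 - a t)`. -/
noncomputable def sigH (a : ZMod p) : TR p k →+* TR p k :=
  AdjoinRoot.lift (AdjoinRoot.of _) (tt p k * (((uu p k a)⁻¹ : (TR p k)ˣ) : TR p k))
    (by rw [eval₂_X_pow, mul_pow, tt_pow, zero_mul])

theorem sigH_tt (a : ZMod p) :
    sigH p k a (tt p k) = tt p k * (((uu p k a)⁻¹ : (TR p k)ˣ) : TR p k) :=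
  AdjoinRoot.lift_root _

theorem sigH_cc (a b : ZMod p) : sigH p k a (cc p k b) = cc p k b :=
  AdjoinRoot.lift_of _

theorem sigH_uu (a b : ZMod p) :
    Units.map (sigH p k a : TR p k →* TR p k) (uu p k b) = uu p k (a + b) * (uu p k a)⁻¹ := by
  rw [eq_mul_inv_iff_mul_eq]
  apply Units.ext
  have h : (((uu p k a)⁻¹ : (TR p k)ˣ) : TR p k) * (uu p k a : TR p k) = 1 := (uu p k a).inv_mul
  have h2 : cc p k (a + b) = cc p k a + cc p k b := map_add _ _ _
  simp only [Units.val_mul, Units.coe_map, MonoidHom.coe_coe]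
  rw [uu_val p k b, map_sub, map_mul, map_one, sigH_cc, sigH_tt, uu_val p k (a + b), h2]
  have h3 := uu_val p k a
  linear_combination (-cc p k b * tt p k) * h + h3

theorem sigH_comp (a b : ZMod p) (x : TR p k) :
    sigH p k a (sigH p k b x) = sigH p k (a + b) x := by
  have : (sigH p k a).comp (sigH p k b) = sigH p k (a + b) := by
    apply AdjoinRoot.ringHom_ext
    · exact RingHom.ext_zmod _ _
    · change sigH p k a (sigH p k b (tt p k)) = sigH p k (a + b) (tt p k)
      rw [sigH_tt, map_mul, sigH_tt, sigH_tt]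
      have h : sigH p k a (((uu p k b)⁻¹ : (TR p k)ˣ) : TR p k) =
          (((uu p k (a + b) * (uu p k a)⁻¹)⁻¹ : (TR p k)ˣ) : TR p k) := by
        rw [← sigH_uu, ← map_inv]; rfl
      rw [h, mul_assoc, ← Units.val_mul]
      congr 2
      group
  exact DFunLike.congr_fun this x

theorem sigH_zero (x : TR p k) : sigH p k 0 x = x := by
  have : sigH p k 0 = RingHom.id _ := by
    apply AdjoinRoot.ringHom_ext
    · exact RingHom.ext_zmod _ _
    · change sigH p k 0 (tt p k) = tt p k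
      rw [sigH_tt, uu_zero]; simp
  rw [this]; rfl

/-- The group generated by the units `1 - a t`. -/
def AR : Subgroup (TR p k)ˣ where
  carrier := {x | ∃ e : ZMod p → ℕ, x = ∏ a, uu p k a ^ e a}
  one_mem' := ⟨0, by simp⟩
  mul_mem' := by
    rintro x y ⟨e, rfl⟩ ⟨f, rfl⟩
    exact ⟨e + f, by simp [pow_add, Finset.prod_mul_distrib]⟩
  inv_mem' := by
    rintro x ⟨e, rfl⟩
    refine ⟨fun a => (p ^ k - 1) * e a, ?_⟩
    rw [inv_eq_iff_mul_eq_one, ← Finset.prod_mul_distrib]
    refine Finset.prod_eq_one fun a _ => ?_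
    have : e a + (p ^ k - 1) * e a = p ^ k * e a := by
      have := pow_pos hp.out.pos k
      obtain ⟨m, hm⟩ : ∃ m, p ^ k = m + 1 := ⟨p ^ k - 1, by omega⟩
      rw [hm, Nat.add_sub_cancel]; ring
    rw [← pow_add, this, pow_mul, uu_pow, one_pow]

theorem uu_mem (a : ZMod p) : uu p k a ∈ AR p k :=
  ⟨Pi.single a 1, by
    rw [Finset.prod_eq_single a]
    · simp
    · intro b _ hb; simp [hb]
    · simp⟩

theorem AR_pow (x : (TR p k)ˣ) (hx : x ∈ AR p k) : x ^ (p ^ k) = 1 := by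
  obtain ⟨e, rfl⟩ := hx
  rw [← Finset.prod_pow]
  refine Finset.prod_eq_one fun a _ => ?_
  rw [← pow_mul, mul_comm, pow_mul, uu_pow, one_pow]

theorem AR_sig (a : ZMod p) (x : (TR p k)ˣ) (hx : x ∈ AR p k) :
    Units.map (sigH p k a : TR p k →* TR p k) x ∈ AR p k := by
  obtain ⟨e, rfl⟩ := hx
  rw [map_prod]
  refine Subgroup.prod_mem _ fun b _ => ?_
  rw [map_pow, sigH_uu]
  exact Subgroup.pow_mem _ (Subgroup.mul_mem _ (uu_mem p k _) (Subgroup.inv_mem _ (uu_mem p k _))) _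

theorem AR_sub (x : (TR p k)ˣ) (hx : x ∈ AR p k) :
    (x : TR p k) - 1 ∈ Ideal.span {tt p k} := by
  obtain ⟨e, rfl⟩ := hx
  rw [← Ideal.Quotient.eq, map_one, Units.coe_prod, map_prod]
  refine Finset.prod_eq_one fun a _ => ?_
  have : Ideal.Quotient.mk (Ideal.span {tt p k}) (tt p k) = 0 :=
    Ideal.Quotient.eq_zero_iff_mem.2 (Ideal.mem_span_singleton_self _)
  rw [Units.val_pow_eq_pow_val, map_pow, uu_val, map_sub, map_mul, this]
  simp

theorem AR_norm (c : ZMod p) (hc : c ≠ 0) (x : (TR p k)ˣ) (hx : x ∈ AR p k) :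
    ∏ a : ZMod p, Units.map (sigH p k (c * a) : TR p k →* TR p k) x = 1 := by
  obtain ⟨e, rfl⟩ := hx
  simp only [map_prod, map_pow, sigH_uu]
  rw [Finset.prod_comm]
  refine Finset.prod_eq_one fun b _ => ?_
  rw [Finset.prod_pow, Finset.prod_mul_distrib, Finset.prod_inv_distrib]
  have h1 : ∏ a : ZMod p, uu p k (c * a) = ∏ a : ZMod p, uu p k a :=
    Fintype.prod_equiv (Equiv.mulLeft₀ c hc) _ _ fun a => rfl
  have h2 : ∏ a : ZMod p, uu p k (c * a + b) = ∏ a : ZMod p, uu p k a :=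
    Fintype.prod_equiv ((Equiv.mulLeft₀ c hc).trans (Equiv.addRight b)) _ _ fun a => rfl
  rw [h1, h2, mul_inv_cancel, one_pow]

theorem card_AR : Nat.card (AR p k) ≤ p ^ (k * p) := by
  have hn : 0 < p ^ k := pow_pos hp.out.pos k
  let F : (ZMod p → Fin (p ^ k)) → AR p k := fun e => ⟨∏ a, uu p k a ^ (e a : ℕ), _, rfl⟩
  have hF : Function.Surjective F := by
    rintro ⟨x, e, rfl⟩
    refine ⟨fun a => ⟨e a % p ^ k, Nat.mod_lt _ hn⟩, Subtype.ext ?_⟩
    refine Finset.prod_congr rfl fun a _ => ?_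
    exact (pow_eq_pow_mod (e a) (uu_pow p k a)).symm
  have := Nat.card_le_card_of_surjective F hF
  rw [Nat.card_fun] at this
  simpa [pow_mul] using this

theorem card_span : Nat.card (Ideal.span {tt p k}) ≤ p ^ (p ^ k - 1) := by
  have := finite_TR p k
  have := nontrivial_TR p k
  have h1 : Nat.card (Ideal.span {tt p k}) ∣ p ^ (p ^ k) := by
    rw [← card_TR]
    exact AddSubgroup.card_addSubgroup_dvd_card (Ideal.span {tt p k}).toAddSubgroup
  obtain ⟨j, hj, h2⟩ := (Nat.dvd_prime_pow hp.out).1 h1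
  rw [h2]
  refine Nat.pow_le_pow_right hp.out.pos ?_
  by_contra h3
  have h4 : j = p ^ k := by omega
  have h5 : (Ideal.span {tt p k}).toAddSubgroup = ⊤ := by
    rw [← AddSubgroup.card_eq_iff_eq_top, card_TR]
    exact h2.trans (by rw [h4])
  have h6 : (1 : TR p k) ∈ Ideal.span {tt p k} := by
    have : (1 : TR p k) ∈ (Ideal.span {tt p k}).toAddSubgroup := h5 ▸ AddSubgroup.mem_top _
    exact this
  rw [← Ideal.eq_top_iff_one, Ideal.span_singleton_eq_top] at h6
  exact h6.not_isNilpotent ⟨_, tt_pow p k⟩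

theorem prod_range_zmod {M : Type} [CommMonoid M] (q : ℕ) [NeZero q] (F : ZMod q → M) :
    ∏ l ∈ Finset.range q, F (l : ZMod q) = ∏ a : ZMod q, F a := by
  refine Finset.prod_bij (fun l _ => (l : ZMod q)) (fun _ _ => Finset.mem_univ _) ?_ ?_
    (fun _ _ => rfl)
  · intro a ha b hb hab
    have := congrArg ZMod.val hab
    rwa [ZMod.val_cast_of_lt (Finset.mem_range.1 ha), ZMod.val_cast_of_lt (Finset.mem_range.1 hb)]
      at this
  · intro b _
    exact ⟨b.val, Finset.mem_range.2 (ZMod.val_lt b), ZMod.natCast_zmod_val b⟩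

theorem sum_range_zmod {M : Type} [AddCommMonoid M] (q : ℕ) [NeZero q] (F : ZMod q → M) :
    ∑ l ∈ Finset.range q, F (l : ZMod q) = ∑ a : ZMod q, F a :=
  prod_range_zmod (M := Multiplicative M) q F

end Pool.Agent.P.MP_e4ebbc_al
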