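import Pool.Agent.P.MP_e4ebbc_al.Aff
import Pool.Agent.P.MP_e4ebbc_al.Trunc

set_option autoImplicit false

namespace Pool.Agent.P.MP_e4ebbc_al

variable (p k q : ℕ) [hp : Fact p.Prime]

/-- The product of `q` copies of the truncated polynomial ring. -/
abbrev BB : Type := ZMod q → TR p k

/-- The indicator of the coordinate `0`. -/
def ind (j : ZMod q) : ZMod p := if j = 0 then 1 else 0

/-- The twisted shift. -/
noncomputable def theta : RingAut (BB p k q) where
  toFun f j := sigH p k (ind p q j) (f (j - 1))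
  invFun f j := sigH p k (-ind p q (j + 1)) (f (j + 1))
  left_inv f := by funext j; simp [sigH_comp, sigH_zero]
  right_inv f := by funext j; simp [sigH_comp, sigH_zero]
  map_mul' f g := by funext j; simp
  map_add' f g := by funext j; simp

theorem theta_apply (f : BB p k q) (j : ZMod q) :
    theta p k q f j = sigH p k (ind p q j) (f (j - 1)) := rfl

theorem theta_pow (m : ℕ) (f : BB p k q) (j : ZMod q) :
    (theta p k q ^ m) f j =
      sigH p k (∑ l ∈ Finset.range m, ind p q (j - l)) (f (j - m)) := by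
  induction m generalizing f with
  | zero => simp [sigH_zero]
  | succ m ih =>
    rw [pow_succ, RingAut.mul_apply, ih, theta_apply, sigH_comp, Finset.sum_range_succ,
      Nat.cast_succ, sub_sub]

variable [NeZero q]

theorem theta_pow_q (f : BB p k q) (j : ZMod q) :
    (theta p k q ^ q) f j = sigH p k 1 (f j) := by
  rw [theta_pow, sum_range_zmod q (fun a => ind p q (j - a)), ZMod.natCast_self, sub_zero,
    Finset.sum_eq_single j]
  · simp [ind]
  · intro b _ hb
    simp [ind, sub_eq_zero, hb.symm]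
  · simp

theorem theta_pow_mul (c : ℕ) (f : BB p k q) (j : ZMod q) :
    (theta p k q ^ (q * c)) f j = sigH p k (c : ZMod p) (f j) := by
  induction c generalizing f with
  | zero => simp [sigH_zero]
  | succ c ih =>
    rw [Nat.mul_succ, pow_add, RingAut.mul_apply, ih, theta_pow_q, sigH_comp, Nat.cast_succ]

theorem theta_order : theta p k q ^ (q * p) = 1 := by
  ext f j
  rw [theta_pow_mul, ZMod.natCast_self, sigH_zero]; rfl

theorem mem_Z (φ : RingAut (BB p k q)) (h : φ ∈ Subgroup.zpowers (theta p k q)) :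
    ∃ m : ℕ, φ = theta p k q ^ m := by
  have h1 : IsOfFinOrder (theta p k q) :=
    isOfFinOrder_iff_pow_eq_one.2
      ⟨q * p, Nat.mul_pos (NeZero.pos q) hp.out.pos, theta_order p k q⟩
  obtain ⟨m, hm⟩ := (h1.mem_powers_iff_mem_zpowers).2 h
  exact ⟨m, hm.symm⟩

theorem card_Z : Nat.card (Subgroup.zpowers (theta p k q)) ≤ q * p := by
  rw [Nat.card_zpowers]
  exact orderOf_le_of_pow_eq_one (Nat.mul_pos (NeZero.pos q) hp.out.pos) (theta_order p k q)

/-- The `j`-th coordinate of a unit. -/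
noncomputable def ev (j : ZMod q) : (BB p k q)ˣ →* (TR p k)ˣ :=
  Units.map (Pi.evalMonoidHom (fun _ : ZMod q => TR p k) j)

omit [NeZero q] hp in
theorem ev_val (j : ZMod q) (U : (BB p k q)ˣ) : (ev p k q j U : TR p k) = (U : BB p k q) j := rfl

/-- Units all of whose coordinates lie in `AR`. -/
noncomputable def AB : Subgroup (BB p k q)ˣ := ⨅ j, (AR p k).comap (ev p k q j)

omit [NeZero q] in
theorem mem_AB (U : (BB p k q)ˣ) : U ∈ AB p k q ↔ ∀ j, ev p k q j U ∈ AR p k := by
  simp [AB, Subgroup.mem_iInf]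

/-- The data defining the group. -/
noncomputable def dd : Data (BB p k q) where
  A := AB p k q
  Z := Subgroup.zpowers (theta p k q)
  inv := by
    intro φ hφ U hU
    obtain ⟨m, rfl⟩ := mem_Z p k q φ hφ
    rw [mem_AB] at hU ⊢
    intro j
    have := AR_sig p k (∑ l ∈ Finset.range m, ind p q (j - l)) _ (hU (j - m))
    convert this using 1
    apply Units.ext
    exact theta_pow p k q m _ j

theorem card_AB : Nat.card (AB p k q) ≤ p ^ (k * p * q) := by
  have := finite_TR p k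
  have h1 : Nat.card (AB p k q) ≤ Nat.card (ZMod q → AR p k) := by
    refine Nat.card_le_card_of_injective
      (fun U j => ⟨ev p k q j U, (mem_AB p k q U).1 U.2 j⟩) ?_
    intro U V h
    apply Subtype.ext
    apply Units.ext
    funext j
    exact congrArg (fun z : AR p k => ((z : (TR p k)ˣ) : TR p k)) (congrFun h j)
  rw [Nat.card_fun, Nat.card_zmod] at h1
  rw [pow_mul]
  exact h1.trans (Nat.pow_le_pow_left (card_AR p k) _)

omit [NeZero q] in
theorem AB_pow (U : (BB p k q)ˣ) (hU : U ∈ AB p k q) : U ^ (p ^ k) = 1 := by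
  apply Units.ext
  funext j
  have := AR_pow p k _ ((mem_AB p k q U).1 hU j)
  rw [← map_pow] at this
  exact congrArg (fun z : (TR p k)ˣ => (z : TR p k)) this

/-- The ideal of tuples with coordinates divisible by `t`. -/
noncomputable def JJ : Ideal (BB p k q) := Ideal.pi fun _ => Ideal.span {tt p k}

theorem card_JJ : Nat.card (JJ p k q) ≤ p ^ ((p ^ k - 1) * q) := by
  have := finite_TR p k
  have h1 : Nat.card (JJ p k q) ≤ Nat.card (ZMod q → Ideal.span {tt p k}) := by
    refine Nat.card_le_card_of_injective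
      (fun U j => ⟨U.1 j, U.2 j⟩) ?_
    intro U V h
    apply Subtype.ext
    funext j
    exact congrArg (fun z : Ideal.span {tt p k} => (z : TR p k)) (congrFun h j)
  rw [Nat.card_fun, Nat.card_zmod] at h1
  rw [pow_mul]
  exact h1.trans (Nat.pow_le_pow_left (card_span p k) _)

omit [NeZero q] in
theorem AB_sub (U : (BB p k q)ˣ) (hU : U ∈ AB p k q) : (U : BB p k q) - 1 ∈ JJ p k q :=
  fun j => AR_sub p k _ ((mem_AB p k q U).1 hU j)

theorem iter_p (c : ℕ) (hc : ¬ p ∣ c) (U : (BB p k q)ˣ) (hU : U ∈ AB p k q) (x : BB p k q) :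
    (fun y => (U : BB p k q) * (theta p k q ^ (q * c)) y)^[p] x = x := by
  have hc' : (c : ZMod p) ≠ 0 := by rwa [Ne, ZMod.natCast_eq_zero_iff]
  rw [iterate_lin, ← pow_mul, mul_assoc, mul_comm c p, ← mul_assoc, pow_mul _ (q * p) c,
    theta_order, one_pow, RingAut.one_apply]
  have : ∏ l ∈ Finset.range p, ((theta p k q ^ (q * c)) ^ l) (U : BB p k q) = 1 := by
    funext j
    rw [Finset.prod_apply]
    have h1 := AR_norm p k c hc' _ ((mem_AB p k q U).1 hU j)
    have h2 := congrArg (fun z : (TR p k)ˣ => (z : TR p k)) h1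
    simp only [Units.coe_prod, Units.coe_map, MonoidHom.coe_coe, Units.val_one, ev_val] at h2
    rw [← prod_range_zmod p (fun a => sigH p k ((c : ZMod p) * a) ((U : BB p k q) j))] at h2
    rw [Pi.one_apply, ← h2]
    refine Finset.prod_congr rfl fun l _ => ?_
    rw [← pow_mul, mul_assoc, theta_pow_mul, Nat.cast_mul]
  rw [this, one_mul]

theorem chain_shift (x : TR p k) (j : ℕ)
    (h : transl (dd p k q) (Pi.single 0 x) ∈ (⊤ : Subgroup (dd p k q).G).lowerCentralSeries j)
    (m : ℕ) (hm : m < q) :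
    ∃ w : BB p k q, w 0 = x ∧ (∀ i : ℕ, m < i → i < q → w i = 0) ∧
      transl (dd p k q) w ∈ (⊤ : Subgroup (dd p k q).G).lowerCentralSeries (j + m) := by
  induction m with
  | zero =>
    refine ⟨Pi.single 0 x, by simp, fun i hi hi' => ?_, h⟩
    have : (i : ZMod q) ≠ 0 := by
      rw [Ne, ZMod.natCast_eq_zero_iff]
      exact Nat.not_dvd_of_pos_of_lt hi hi'
    simp [this]
  | succ m ih =>
    obtain ⟨w, h0, h1, h2⟩ := ih (by omega)
    refine ⟨_, ?_, ?_, lcs_step (dd p k q) 1 (Subgroup.one_mem _) (theta p k q)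
      (Subgroup.mem_zpowers _) _ w h2⟩
    · have h3 : (0 - 1 : ZMod q) = ((q - 1 : ℕ) : ZMod q) := by
        rw [Nat.cast_sub (by omega), ZMod.natCast_self, Nat.cast_one]
      rw [Units.val_one, one_mul, Pi.sub_apply, theta_apply, h3, h1 (q - 1) (by omega) (by omega),
        map_zero, sub_zero, h0]
    · intro i hi hi'
      have h3 : ((i : ZMod q) - 1 : ZMod q) = ((i - 1 : ℕ) : ZMod q) := by
        rw [Nat.cast_sub (by omega), Nat.cast_one]
      rw [Units.val_one, one_mul, Pi.sub_apply, theta_apply, h3, h1 (i - 1) (by omega) (by omega),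
        map_zero, sub_zero, h1 i (by omega) hi']

theorem chain_mul (w : BB p k q) (j : ℕ)
    (h : transl (dd p k q) w ∈ (⊤ : Subgroup (dd p k q).G).lowerCentralSeries j) :
    transl (dd p k q) (Pi.single 0 (tt p k * w 0)) ∈
      (⊤ : Subgroup (dd p k q).G).lowerCentralSeries (j + 1) := by
  let y : (BB p k q)ˣ := Units.map (MonoidHom.mulSingle (fun _ : ZMod q => TR p k) 0) (uu p k 1)
  have hy : ∀ i, (y : BB p k q) i = if i = 0 then (uu p k 1 : TR p k) else 1 := by
    intro i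
    simp [y, Pi.mulSingle_apply]
  have hy' : y ∈ AB p k q := by
    rw [mem_AB]
    intro i
    by_cases hi : i = 0
    · have : ev p k q i y = uu p k 1 := Units.ext (by rw [ev_val, hy, if_pos hi])
      rw [this]; exact uu_mem p k 1
    · have : ev p k q i y = 1 := Units.ext (by rw [ev_val, hy, if_neg hi]; rfl)
      rw [this]; exact Subgroup.one_mem _
  have h1 := lcs_step (dd p k q) y hy' 1 (Subgroup.one_mem _) j w h
  convert h1 using 2
  funext i
  rw [Pi.sub_apply, Pi.mul_apply, hy, RingAut.one_apply]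
  by_cases hi : i = 0
  · subst hi
    rw [if_pos rfl, uu_val, Pi.single_eq_same]
    have : cc p k 1 = 1 := map_one _
    rw [this]; ring
  · rw [if_neg hi, Pi.single_eq_of_ne hi]; ring

theorem chain (i : ℕ) : transl (dd p k q) (Pi.single 0 (tt p k ^ i)) ∈
    (⊤ : Subgroup (dd p k q).G).lowerCentralSeries (q * i) := by
  have hq := NeZero.pos q
  induction i with
  | zero => exact Subgroup.mem_top _
  | succ i ih =>
    obtain ⟨w, h0, -, h2⟩ := chain_shift p k q _ _ ih (q - 1) (by omega)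
    have h3 := chain_mul p k q w _ h2
    rw [h0, ← pow_succ'] at h3
    have h4 : q * (i + 1) = q * i + (q - 1) + 1 := by rw [Nat.mul_succ]; omega
    rwa [h4]

theorem class_ge [Group.IsNilpotent (dd p k q).G] :
    q * p ^ k ≤ Group.nilpotencyClass (dd p k q).G := by
  have hq := NeZero.pos q
  have hn : 0 < p ^ k := pow_pos hp.out.pos k
  obtain ⟨w, h0, -, h2⟩ := chain_shift p k q _ _ (chain p k q (p ^ k - 1)) (q - 1) (by omega)
  by_contra h
  have h3 : q * (p ^ k - 1) + q = q * p ^ k := by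
    rw [← Nat.mul_succ]; congr 1; omega
  have h4 : Group.nilpotencyClass (dd p k q).G ≤ q * (p ^ k - 1) + (q - 1) := by omega
  rw [← Subgroup.lowerCentralSeries_eq_bot_iff_nilpotencyClass_le] at h4
  rw [h4, Subgroup.mem_bot] at h2
  refine transl_ne_one _ w ?_ h2
  intro hw
  rw [hw] at h0
  exact tt_pow_ne p k (p ^ k - 1) (by omega) h0.symm

theorem iter_all (e : ℕ) [NeZero (p ^ e)] (U : (BB p k (p ^ e))ˣ) (hU : U ∈ AB p k (p ^ e))
    (φ : RingAut (BB p k (p ^ e))) (hφ : φ ∈ Subgroup.zpowers (theta p k (p ^ e))) (h1 : φ ≠ 1)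
    (x : BB p k (p ^ e)) : (fun y => (U : BB p k (p ^ e)) * φ y)^[p ^ (e + 1)] x = x := by
  obtain ⟨i, rfl⟩ := mem_Z p k _ φ hφ
  have hi : i ≠ 0 := by rintro rfl; exact h1 (pow_zero _)
  obtain ⟨f, c, hc, rfl⟩ := Nat.exists_eq_pow_mul_and_not_dvd hi p hp.out.ne_one
  have hf : f ≤ e := by
    by_contra hf
    apply h1
    obtain ⟨g, rfl⟩ : ∃ g, f = e + 1 + g := ⟨f - (e + 1), by omega⟩
    rw [pow_add p (e + 1) g, pow_succ p e, mul_assoc (p ^ e * p), pow_mul _ (p ^ e * p),
      theta_order, one_pow]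
  obtain ⟨g, hg⟩ : ∃ g, e = f + g := ⟨e - f, by omega⟩
  let U' : (BB p k (p ^ e))ˣ := ∏ l ∈ Finset.range (p ^ g),
    Units.map (((theta p k (p ^ e) ^ (p ^ f * c)) ^ l : RingAut (BB p k (p ^ e))) :
      BB p k (p ^ e) →* BB p k (p ^ e)) U
  have hU' : U' ∈ AB p k (p ^ e) :=
    Subgroup.prod_mem _ fun l _ => (dd p k (p ^ e)).inv _ (Subgroup.pow_mem _ hφ l) U hU
  have h2 : (fun y => (U : BB p k (p ^ e)) * (theta p k (p ^ e) ^ (p ^ f * c)) y)^[p ^ g] =
      fun y => (U' : BB p k (p ^ e)) * (theta p k (p ^ e) ^ (p ^ e * c)) y := by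
    funext y
    have h3 : p ^ f * c * p ^ g = p ^ e * c := by rw [hg, pow_add]; ring
    rw [iterate_lin, ← pow_mul _ _ (p ^ g), h3]
    congr 1
    simp only [U', Units.coe_prod, Units.coe_map, MonoidHom.coe_coe]
  have h4 : (fun y => (U' : BB p k (p ^ e)) * (theta p k (p ^ e) ^ (p ^ e * c)) y)^[p] = id :=
    funext (iter_p p k _ c hc U' hU')
  have h5 : p ^ (e + 1) = p ^ g * p * p ^ f := by rw [hg]; ring
  rw [h5, Function.iterate_mul, Function.iterate_mul, h2, h4, Function.iterate_id]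
  rfl

theorem card_BB : Nat.card (BB p k q) = p ^ (p ^ k * q) := by
  rw [Nat.card_fun, card_TR, Nat.card_zmod, ← pow_mul]

theorem breadth_le (e s m : ℕ) [NeZero (p ^ e)] (h1 : e + 1 + m ≤ p ^ e)
    (h2 : (s + 1) * p * p ^ e + (e + 1 + m) ≤ p ^ s) (g : (dd p (s + 1) (p ^ e)).G) :
    Nat.card {h : (dd p (s + 1) (p ^ e)).G | IsConj g h} ≤ p ^ (p ^ e * p ^ (s + 1) - m) := by
  have := finite_TR p (s + 1)
  have := nontrivial_TR p (s + 1)
  have := charP_TR p (s + 1)
  have hn : 0 < p ^ (s + 1) := pow_pos hp.out.pos _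
  have hZ : Nat.card (dd p (s + 1) (p ^ e)).Z ≤ p ^ (e + 1) :=
    card_Z p (s + 1) (p ^ e)
  have h3 : (p ^ (s + 1) - 1) * p ^ e + p ^ e = p ^ e * p ^ (s + 1) := by
    rw [← Nat.succ_mul, mul_comm]; congr 1; omega
  obtain ⟨w, u, hu, φ, hφ, hg⟩ := g.2
  by_cases hφ1 : φ = 1
  · subst hφ1
    refine (card_conj_one _ (JJ p (s + 1) (p ^ e)) (AB_sub p _ _) g w u hu hg).trans ?_
    refine (Nat.mul_le_mul hZ (card_JJ p _ _)).trans ?_
    rw [← pow_add]
    exact Nat.pow_le_pow_right hp.out.pos (by omega)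
  · have h4 := card_range_le p hp.out u φ (e + 1) (p ^ (p ^ s))
      (iter_all p (s + 1) e u hu φ hφ hφ1) (by
        rw [card_BB, ← pow_mul]
        exact le_of_eq (by congr 1; ring))
    rw [card_BB] at h4
    have h5 := (card_conj_two _ g w u φ hg).trans
      (Nat.mul_le_mul_right _ (Nat.mul_le_mul (card_AB p (s + 1) (p ^ e)) hZ))
    refine Nat.le_of_mul_le_mul_right ?_ (pow_pos hp.out.pos (p ^ s))
    refine (Nat.mul_le_mul_right _ h5).trans ?_
    rw [mul_assoc]
    refine (Nat.mul_le_mul_left _ h4).trans ?_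
    rw [← pow_add p ((s + 1) * p * p ^ e), ← pow_add p ((s + 1) * p * p ^ e + (e + 1)),
      ← pow_add p (p ^ e * p ^ (s + 1) - m)]
    refine Nat.pow_le_pow_right hp.out.pos ?_
    rw [mul_comm (p ^ (s + 1)) (p ^ e)]
    omega

omit hp [NeZero q] in
theorem exists_group (p : ℕ) (hp : p.Prime) (m : ℕ) :
    ∃ (G : Type) (_ : Group G) (_ : Finite G) (_ : Group.IsNilpotent G),
      IsPGroup p G ∧ ∃ b : ℕ, (∀ g : G, Nat.card {h : G | IsConj g h} ≤ p ^ b) ∧
        b + m ≤ Group.nilpotencyClass G := by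
  have : Fact p.Prime := ⟨hp⟩
  have hlt : ∀ r : ℕ, r + 1 ≤ p ^ r := fun r => Nat.lt_pow_self hp.one_lt
  obtain ⟨e, he⟩ : ∃ e, e + 1 + m ≤ p ^ e := by
    refine ⟨m + 1 + 1, ?_⟩
    have h1 := hlt (m + 1)
    have h2 := Nat.mul_le_mul h1 hp.two_le
    rw [← pow_succ] at h2
    omega
  obtain ⟨s, hs⟩ : ∃ s, (s + 1) * p * p ^ e + (e + 1 + m) ≤ p ^ s := by
    generalize e + 1 + m = C'
    rw [show (fun s => (s + 1) * p * p ^ e + C' ≤ p ^ s) =
      fun s => (s + 1) * (p * p ^ e) + C' ≤ p ^ s by funext s; rw [mul_assoc]]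
    generalize p * p ^ e = C
    refine ⟨(2 * C + C') + (2 * C + C'), ?_⟩
    have h1 := hlt (2 * C + C')
    have h2 := Nat.mul_le_mul h1 h1
    rw [← pow_add] at h2
    refine le_trans ?_ h2
    nlinarith [Nat.zero_le C, Nat.zero_le C', Nat.zero_le (C * C'), Nat.zero_le (C' * C')]
  have : NeZero (p ^ e) := ⟨pow_ne_zero _ hp.ne_zero⟩
  have := finite_TR p (s + 1)
  have := nontrivial_TR p (s + 1)
  have := charP_TR p (s + 1)
  have hP : IsPGroup p (dd p (s + 1) (p ^ e)).G := by
    refine isPGroup _ p (e + 1) (s + 1) ?_ (AB_pow p _ _)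
    intro φ hφ
    obtain ⟨i, rfl⟩ := mem_Z p _ _ φ hφ
    rw [← pow_mul, mul_comm, pow_mul, pow_succ p e, theta_order, one_pow]
  have hN : Group.IsNilpotent (dd p (s + 1) (p ^ e)).G := hP.isNilpotent
  refine ⟨(dd p (s + 1) (p ^ e)).G, inferInstance, inferInstance, hN, hP,
    p ^ e * p ^ (s + 1) - m, breadth_le p e s m he hs, ?_⟩
  have h1 := class_ge p (s + 1) (p ^ e)
  have h2 : p ^ e ≤ p ^ e * p ^ (s + 1) := Nat.le_mul_of_pos_right _ (pow_pos hp.pos _)
  omega

end Pool.Agent.P.MP_e4ebbc_al
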