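import Pool.Agent.P.MP_e4ebbc_al.Main

set_option autoImplicit false

namespace Pool.Agent.P.MP_e4ebbc_al

theorem exists_rate (p : ℕ) (hp : p.Prime) (m : ℕ) :
    ∃ (G : Type) (_ : Group G) (_ : Finite G) (_ : Group.IsNilpotent G),
      IsPGroup p G ∧ ∃ b : ℕ, (∀ g : G, Nat.card {h : G | IsConj g h} ≤ p ^ b) ∧
        b + m ≤ Group.nilpotencyClass G ∧ b ≤ 8 * p ^ 7 * (m + 1) ^ 2 * (Nat.log p m + 1) := by
  classical
  have : Fact p.Prime := ⟨hp⟩
  have p2 := hp.two_le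
  have l1 : m < p ^ (Nat.log p m + 1) := Nat.lt_pow_succ_log_self hp.one_lt m
  have l2 : p ^ Nat.log p m ≤ m + 1 := by
    rcases Nat.eq_zero_or_pos m with h | h
    · subst h; simp
    · exact (Nat.pow_log_le_self p h.ne').trans (Nat.le_succ _)
  generalize Nat.log p m = L at l1 l2
  obtain ⟨e, he⟩ : ∃ e, e = L + 2 := ⟨_, rfl⟩
  have hm : e + 1 + m ≤ p ^ e := by
    have h1 : L + 1 < p ^ (L + 1) := Nat.lt_pow_self hp.one_lt
    have h2 := Nat.mul_le_mul_left (p ^ (L + 1)) p2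
    rw [he, pow_succ p (L + 1)]
    omega
  have h0 : e + (e + 2) + 3 ≤ p ^ (e + 2) := by
    have h1 : e < p ^ e := Nat.lt_pow_self hp.one_lt
    have h2 : 2 ^ 2 ≤ p ^ 2 := Nat.pow_le_pow_left p2 2
    have h3 := Nat.mul_le_mul_left (p ^ e) h2
    rw [pow_add]
    omega
  have hex : ∃ r, e + r + 3 ≤ p ^ r := ⟨e + 2, h0⟩
  have r1 := Nat.find_spec hex
  have r2 : Nat.find hex ≤ e + 2 := Nat.find_min' hex h0
  have r3 : p ^ Nat.find hex ≤ p * (8 * (L + 1)) := by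
    rcases h : Nat.find hex with _ | r
    · rw [h, pow_zero] at r1; omega
    · have := Nat.find_min hex (show r < Nat.find hex by omega)
      rw [pow_succ, mul_comm]
      exact Nat.mul_le_mul_left _ (by omega)
  generalize Nat.find hex = r at r1 r2 r3
  obtain ⟨s, hs0⟩ : ∃ s, s = e + 1 + r := ⟨_, rfl⟩
  have hs : (s + 1) * p * p ^ e + (e + 1 + m) ≤ p ^ s := by
    have h1 : p ^ s = p ^ r * (p * p ^ e) := by rw [hs0]; ring
    have h2 := Nat.mul_le_mul_right (p * p ^ e) r1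
    have h3 : p ^ e ≤ p * p ^ e := Nat.le_mul_of_pos_left _ hp.pos
    rw [h1, hs0]
    nlinarith
  have : NeZero (p ^ e) := ⟨pow_ne_zero _ hp.ne_zero⟩
  have := finite_TR p (s + 1)
  have := nontrivial_TR p (s + 1)
  have := charP_TR p (s + 1)
  have hP : IsPGroup p (dd p (s + 1) (p ^ e)).G := by
    refine isPGroup _ p (e + 1) (s + 1) ?_ (AB_pow p _ _)
    intro φ hφ
    obtain ⟨i, rfl⟩ := mem_Z p _ _ φ hφ
    rw [← pow_mul, mul_comm, pow_mul, pow_succ p e, theta_order, one_pow]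
  have hN : Group.IsNilpotent (dd p (s + 1) (p ^ e)).G := hP.isNilpotent
  refine ⟨(dd p (s + 1) (p ^ e)).G, inferInstance, inferInstance, hN, hP,
    p ^ e * p ^ (s + 1) - m, breadth_le p e s m hm hs, ?_, ?_⟩
  · have h1 := class_ge p (s + 1) (p ^ e)
    have h2 : p ^ e ≤ p ^ e * p ^ (s + 1) := Nat.le_mul_of_pos_right _ (pow_pos hp.pos _)
    omega
  · calc p ^ e * p ^ (s + 1) - m ≤ p ^ e * p ^ (s + 1) := Nat.sub_le _ _
      _ = p ^ L * p ^ L * p ^ 6 * p ^ r := by rw [hs0, he]; ring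
      _ ≤ (m + 1) * (m + 1) * p ^ 6 * (p * (8 * (L + 1))) :=
        Nat.mul_le_mul (Nat.mul_le_mul_right _ (Nat.mul_le_mul l2 l2)) r3
      _ = 8 * p ^ 7 * (m + 1) ^ 2 * (L + 1) := by ring

end Pool.Agent.P.MP_e4ebbc_al
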