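import Pool.Agent.P.MP_e4ebbc_al.Main

set_option autoImplicit false

namespace Pool.Agent.P.MP_e4ebbc_al.VariantUnbounded

/-- For every prime `p` and every `m` there is a finite `p`-group all of whose conjugacy classes
have at most `p ^ b` elements and whose nilpotency class is at least `b + m`. -/
theorem result (p : ℕ) (hp : p.Prime) (m : ℕ) :
    ∃ (G : Type) (_ : Group G) (_ : Finite G) (_ : Group.IsNilpotent G),
      IsPGroup p G ∧ ∃ b : ℕ, (∀ g : G, Nat.card {h : G | IsConj g h} ≤ p ^ b) ∧
        b + m ≤ Group.nilpotencyClass G :=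
  Pool.Agent.P.MP_e4ebbc_al.exists_group p hp m

end Pool.Agent.P.MP_e4ebbc_al.VariantUnbounded
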